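import Mathlib
import Pool.Agent.W5h63.AX.Split

/-! A strict Lyapunov form of a hyperbolic linear map. -/

set_option autoImplicit false
set_option linter.unusedSectionVars false

open Filter Topology

noncomputable section

namespace Pool.Agent.W5h63.AX

open Pool.Agent.R775.HL

section

variable {E : Type*} [NormedAddCommGroup E] [NormedSpace ℝ E] [FiniteDimensional ℝ E]

lemma unif_small {T : ℕ → (E →ₗ[ℝ] E)} (h : ∀ v, Tendsto (fun k => T k v) atTop (𝓝 0)) {ε : ℝ}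
    (hε : 0 < ε) : ∀ᶠ k in atTop, ∀ v, ‖T k v‖ ≤ ε * ‖v‖ := by
  let b := Module.finBasis ℝ E
  obtain ⟨C, hC, hCb⟩ := b.exists_opNorm_le (F := E)
  have h1 : ∀ᶠ k in atTop, ∀ i, ‖T k (b i)‖ ≤ ε / C := by
    rw [eventually_all]
    intro i
    have h2 := (h (b i)).norm
    rw [norm_zero] at h2
    exact (h2.eventually (gt_mem_nhds (div_pos hε hC))).mono fun k hk => hk.le
  filter_upwards [h1] with k hk v
  have h2 := hCb (u := LinearMap.toContinuousLinearMap (T k)) (div_pos hε hC).le hk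
  rw [mul_div_cancel₀ _ hC.ne'] at h2
  exact ((LinearMap.toContinuousLinearMap (T k)).le_opNorm v).trans
    (mul_le_mul_of_nonneg_right h2 (norm_nonneg v))

end

variable {E : Type*} [NormedAddCommGroup E] [InnerProductSpace ℝ E] [FiniteDimensional ℝ E]

/-- the inner product as a continuous bilinear map -/
def ip (E : Type*) [NormedAddCommGroup E] [InnerProductSpace ℝ E] : E →L[ℝ] E →L[ℝ] ℝ :=
  (isBoundedBilinearMap_inner (𝕜 := ℝ) (E := E)).toContinuousLinearMap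

lemma ip_self (v : E) : ip E v v = ‖v‖ ^ 2 := real_inner_self_eq_norm_sq v

/-- the form `⟨S v, S w⟩` -/
def fs (S : E →ₗ[ℝ] E) : E →L[ℝ] E →L[ℝ] ℝ :=
  (ip E).bilinearComp (LinearMap.toContinuousLinearMap S) (LinearMap.toContinuousLinearMap S)

lemma fs_self (S : E →ₗ[ℝ] E) (v : E) : fs S v v = ‖S v‖ ^ 2 := ip_self (S v)

/-- **A strict Lyapunov form.** -/
theorem lyap (A : E ≃ₗ[ℝ] E) (h : HypLin (A : E →ₗ[ℝ] E)) :
    ∃ q : E →L[ℝ] E →L[ℝ] ℝ, ∀ v, v ≠ 0 → q v v < q (A v) (A v) := by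
  obtain ⟨P, hPA, hPP, hs, hu⟩ := split A h
  have h1 : ∀ᶠ k : ℕ in atTop, ∀ v, ‖(((A : E →ₗ[ℝ] E) ^ k) ∘ₗ P) v‖ ≤ 1 / 2 * ‖v‖ :=
    unif_small (fun v => hs v) (by norm_num)
  have h2 : ∀ᶠ k : ℕ in atTop, ∀ v,
      ‖(((A.symm : E →ₗ[ℝ] E) ^ k) ∘ₗ (LinearMap.id - P)) v‖ ≤ 1 / 2 * ‖v‖ :=
    unif_small (fun v => hu v) (by norm_num)
  obtain ⟨K, hK1, hK2⟩ := (h1.and h2).exists
  refine ⟨∑ k ∈ Finset.range K, fs (((A.symm : E →ₗ[ℝ] E) ^ (k + 1)) ∘ₗ (LinearMap.id - P)) -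
    ∑ k ∈ Finset.range K, fs (((A : E →ₗ[ℝ] E) ^ k) ∘ₗ P), fun v hv => ?_⟩
  have hBA : ∀ (k : ℕ) (w : E), ((A.symm : E →ₗ[ℝ] E) ^ (k + 1)) (A w) =
      ((A.symm : E →ₗ[ℝ] E) ^ k) w := by
    intro k w
    rw [pow_succ, Module.End.mul_apply]
    congr 1
    exact A.symm_apply_apply w
  have hAA : ∀ (k : ℕ) (w : E), ((A : E →ₗ[ℝ] E) ^ k) (A w) = ((A : E →ₗ[ℝ] E) ^ (k + 1)) w := by
    intro k w
    rw [pow_succ, Module.End.mul_apply]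
    rfl
  have e : ∀ w : E, (∑ k ∈ Finset.range K,
      fs (((A.symm : E →ₗ[ℝ] E) ^ (k + 1)) ∘ₗ (LinearMap.id - P)) -
      ∑ k ∈ Finset.range K, fs (((A : E →ₗ[ℝ] E) ^ k) ∘ₗ P)) w w =
      ∑ k ∈ Finset.range K, ‖((A.symm : E →ₗ[ℝ] E) ^ (k + 1)) (w - P w)‖ ^ 2 -
      ∑ k ∈ Finset.range K, ‖((A : E →ₗ[ℝ] E) ^ k) (P w)‖ ^ 2 := by
    intro w
    simp only [ContinuousLinearMap.sub_apply, ContinuousLinearMap.sum_apply, fs_self]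
    rfl
  rw [e, e]
  have e1 : ∀ k : ℕ, ((A.symm : E →ₗ[ℝ] E) ^ (k + 1)) (A v - P (A v)) =
      ((A.symm : E →ₗ[ℝ] E) ^ k) (v - P v) := by
    intro k
    rw [hPA, ← map_sub A]
    exact hBA k _
  have e2 : ∀ k : ℕ, ((A : E →ₗ[ℝ] E) ^ k) (P (A v)) = ((A : E →ₗ[ℝ] E) ^ (k + 1)) (P v) := by
    intro k
    rw [hPA]
    exact hAA k _
  simp only [e1, e2]
  have s1 := Finset.sum_range_sub' (fun k : ℕ => ‖((A.symm : E →ₗ[ℝ] E) ^ k) (v - P v)‖ ^ 2) K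
  have s2 := Finset.sum_range_sub' (fun k : ℕ => ‖((A : E →ₗ[ℝ] E) ^ k) (P v)‖ ^ 2) K
  rw [Finset.sum_sub_distrib] at s1 s2
  have t1 : ‖((A : E →ₗ[ℝ] E) ^ K) (P v)‖ ≤ 1 / 2 * ‖P v‖ := by
    have := hK1 (P v)
    rwa [LinearMap.comp_apply, hPP] at this
  have t2 : ‖((A.symm : E →ₗ[ℝ] E) ^ K) (v - P v)‖ ≤ 1 / 2 * ‖v - P v‖ := by
    have := hK2 (v - P v)
    rw [LinearMap.comp_apply] at this
    have e3 : ((LinearMap.id : E →ₗ[ℝ] E) - P) (v - P v) = v - P v := by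
      show (v - P v) - P (v - P v) = v - P v
      rw [map_sub, hPP, sub_self, sub_zero]
    rwa [e3] at this
  have z1 : ((A.symm : E →ₗ[ℝ] E) ^ 0) (v - P v) = v - P v := rfl
  have z2 : ((A : E →ₗ[ℝ] E) ^ 0) (P v) = P v := rfl
  have u1 : ‖((A : E →ₗ[ℝ] E) ^ K) (P v)‖ ^ 2 ≤ (1 / 2 * ‖P v‖) ^ 2 :=
    pow_le_pow_left₀ (norm_nonneg _) t1 2
  have u2 : ‖((A.symm : E →ₗ[ℝ] E) ^ K) (v - P v)‖ ^ 2 ≤ (1 / 2 * ‖v - P v‖) ^ 2 :=
    pow_le_pow_left₀ (norm_nonneg _) t2 2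
  simp only [z1, z2] at s1 s2
  have hpos : 0 < ‖P v‖ ^ 2 + ‖v - P v‖ ^ 2 := by
    by_contra hcon
    have h3 : ‖P v‖ ^ 2 = 0 := le_antisymm (by nlinarith [sq_nonneg ‖v - P v‖]) (sq_nonneg _)
    have h4 : ‖v - P v‖ ^ 2 = 0 := le_antisymm (by nlinarith [sq_nonneg ‖P v‖]) (sq_nonneg _)
    have h5 : P v = 0 := by simpa using h3
    have h6 : v - P v = 0 := by simpa using h4
    rw [h5, sub_zero] at h6
    exact hv h6
  nlinarith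

end Pool.Agent.W5h63.AX
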