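import Mathlib
import Pool.Agent.W5h63.AX.Cone
import Pool.Agent.W5h63.AX.Lyap
import Pool.Agent.R775.HL.Defs

/-! Transversal hyperbolicity and a hyperbolic linear part along the leaves: the total quadratic form. -/

set_option autoImplicit false
set_option linter.unusedSectionVars false
set_option maxSynthPendingDepth 3

open Filter Topology Set Metric
open scoped ContDiff Manifold

noncomputable section

namespace Pool.Agent.W5h63.AX

open Pool.Agent.R774.Cl Pool.Agent.R774.ClStmt Pool.Agent.H718R2.G Pool.Agent.R775.HL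

universe u

lemma exists_mult {X : Type*} [TopologicalSpace X] {S : Set X} (hS : IsCompact S) {f g : X → ℝ}
    (hf : ContinuousOn f S) (hg : ContinuousOn g S) (h0 : ∀ p ∈ S, 0 ≤ f p)
    (h1 : ∀ p ∈ S, f p = 0 → 0 < g p) : ∃ M : ℝ, 0 < M ∧ ∀ p ∈ S, 0 < M * f p + g p := by
  have hcont : ContinuousOn (fun p => f p + max (g p) 0) S := hf.add ((continuous_id.max continuous_const).comp_continuousOn hg)
  obtain ⟨δ, hδ, hδb⟩ := hS.exists_forall_le' hcont (a := 0) (by
    intro p hp
    rcases (h0 p hp).eq_or_lt with h | h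
    · have := h1 p hp h.symm
      have h2 := le_max_left (g p) 0
      linarith
    · have h2 := le_max_right (g p) 0
      linarith)
  obtain ⟨G, hG⟩ := hS.exists_bound_of_continuousOn hg
  refine ⟨2 * |G| / δ + 1, by positivity, fun p hp => ?_⟩
  have h2 := h0 p hp
  have h3 : -|G| ≤ g p := by
    have := (abs_le.1 ((hG p hp).trans (le_abs_self G))).1
    exact this
  by_cases h4 : δ / 2 ≤ g p
  · have : 0 ≤ (2 * |G| / δ + 1) * f p := by positivity
    linarith
  · push Not at h4
    have h5 := hδb p hp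
    have h6 : δ / 2 < f p := by
      have h7 : max (g p) 0 < δ / 2 := max_lt h4 (by linarith)
      linarith
    have h7 : (2 * |G| / δ + 1) * (δ / 2) < (2 * |G| / δ + 1) * f p :=
      mul_lt_mul_of_pos_left h6 (by positivity)
    have h8 : (2 * |G| / δ + 1) * (δ / 2) = |G| + δ / 2 := by
      field_simp
    linarith

variable {n m m' k : ℕ} {N : Type u} [TopologicalSpace N] [ChartedSpace (V n) N]
  [IsManifold (𝓡 n) ∞ N]

/-- the derivative of the family of maps at the parameter zero -/
def oL (n : ℕ) {k : ℕ} {N : Type u} [TopologicalSpace N] [ChartedSpace (V n) N]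
    (Φ : V k → N → N) (x : N) : V k →L[ℝ] V n := dr (V k) (V n) (fun a => Φ a x) 0

lemma oL_apply (Φ : V k → N → N) (x : N) (s : V k) : oL n Φ x s = orb Φ x s := rfl

/-- continuity of the velocities of the family, measured by the immersion `e` -/
lemma oL_cont {Φ : V k → N → N} (hΦ : Act (E := V n) Φ) {e : N → V m}
    (he : ContMDiff (𝓡 n) (𝓡 m) 1 e) :
    Continuous fun x => (dr (V n) (V m) e x).comp (oL n Φ x) := by
  rw [continuous_iff_continuousAt]
  intro x₀
  have hx₀ := mem_extChartAt_source (I := 𝓡 n) x₀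
  have h1 := contAt_J he hx₀
  have h2 := Xc_cont hΦ hx₀
  refine (h1.clm_comp h2).congr ?_
  filter_upwards [(isOpen_extChartAt_source x₀).mem_nhds hx₀] with y hy
  ext s : 1
  rw [ContinuousLinearMap.comp_apply, Xc_eq hΦ hy, chart_comp_e he hy]
  rfl

/-- **The total form.** -/
theorem total [CompactSpace N] {F : N → N} (hF : ContMDiff (𝓡 n) (𝓡 n) 1 F) {G : Type}
    [TopologicalSpace G] {O : Set N} {act : G → N → N} {K : Set N} {Φ : V k → N → N}
    {e₁ : N → V m'} {B : N → V m' →L[ℝ] V m' →L[ℝ] ℝ}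
    (h : TransHyp (n := n) F O act K Φ e₁ B) {e : N → V m} (he : Imm n e) (L : V k ≃ₗ[ℝ] V k)
    (hL : HypLin (L : V k →ₗ[ℝ] V k))
    (hEq : ∀ x ∈ K, ∀ s, dr (V n) (V n) F x (orb Φ x s) = orb Φ (F x) (L s)) :
    ∃ b : N → V m →L[ℝ] V m →L[ℝ] ℝ, Cone n F K e b := by
  obtain ⟨q, hq⟩ := lyap L hL
  have hΦ : Act (E := V n) Φ := ⟨h.fam, h.fam_zero⟩
  have hJ := oL_cont hΦ he.smooth
  let R : N → V m →L[ℝ] V k := fun x => pinv ((dr (V n) (V m) e x).comp (oL n Φ x))
  have hinj : ∀ x ∈ K, ∀ s, ((dr (V n) (V m) e x).comp (oL n Φ x)) s = 0 → s = 0 :=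
    fun x hx s hs => h.free x hx s (he.inj x _ hs)
  have hR : ContinuousOn R K := by
    intro x hx
    exact (ContinuousAt.comp (g := pinv (E := V k) (F := V m))
      (f := fun x => (dr (V n) (V m) e x).comp (oL n Φ x)) (x := x) (pinv_cont (hinj x hx))
      hJ.continuousAt).continuousWithinAt
  have hRo : ∀ x ∈ K, ∀ s, R x (dr (V n) (V m) e x (orb Φ x s)) = s :=
    fun x hx s => pinv_left (hinj x hx) s
  have hT1 : Continuous fun p : N × V m => tr (n := n) e e₁ p.1 p.2 :=
    ((tr_cont he h.smooth).comp continuous_fst).clm_apply continuous_snd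
  have hT2 : Continuous fun p : N × V m => tr (n := n) e (fun y => e₁ (F y)) p.1 p.2 :=
    ((tr_cont he (h.smooth.comp hF)).comp continuous_fst).clm_apply continuous_snd
  have hT3 : Continuous fun p : N × V m => tr (n := n) e (fun y => e (F y)) p.1 p.2 :=
    ((tr_cont he (he.smooth.comp hF)).comp continuous_fst).clm_apply continuous_snd
  have hFc : Continuous F := hF.continuous
  let f : N × V m → ℝ := fun p =>
    B (F p.1) (tr (n := n) e (fun y => e₁ (F y)) p.1 p.2)
      (tr (n := n) e (fun y => e₁ (F y)) p.1 p.2) -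
    B p.1 (tr (n := n) e e₁ p.1 p.2) (tr (n := n) e e₁ p.1 p.2)
  let g : N × V m → ℝ := fun p =>
    q (R (F p.1) (tr (n := n) e (fun y => e (F y)) p.1 p.2))
      (R (F p.1) (tr (n := n) e (fun y => e (F y)) p.1 p.2)) - q (R p.1 p.2) (R p.1 p.2)
  have hfc : Continuous f :=
    (((h.cont.comp (hFc.comp continuous_fst)).clm_apply hT2).clm_apply hT2).sub
      (((h.cont.comp continuous_fst).clm_apply hT1).clm_apply hT1)
  have hgc : ContinuousOn g {p | p.1 ∈ K} := by
    have h1 : ContinuousOn (fun p : N × V m => R (F p.1)) {p | p.1 ∈ K} :=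
      hR.comp (hFc.comp continuous_fst).continuousOn fun p hp => h.inv _ hp
    have h2 : ContinuousOn (fun p : N × V m => R p.1) {p | p.1 ∈ K} :=
      hR.comp continuous_fst.continuousOn fun p hp => hp
    have h3 := h1.clm_apply hT3.continuousOn
    have h4 : ContinuousOn (fun p : N × V m => R p.1 p.2) {p | p.1 ∈ K} :=
      h2.clm_apply continuous_snd.continuousOn
    have hq0 : ContinuousOn (fun _ : N × V m => q) {p : N × V m | p.1 ∈ K} := continuousOn_const
    exact ((hq0.clm_apply h3).clm_apply h3).sub ((hq0.clm_apply h4).clm_apply h4)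
  have ef : ∀ x v, f (x, dr (V n) (V m) e x v) =
      quad e₁ B (F x) (dr (V n) (V n) F x v) - quad e₁ B x v := by
    intro x v
    show B (F x) (tr (n := n) e (fun y => e₁ (F y)) x (dr (V n) (V m) e x v))
      (tr (n := n) e (fun y => e₁ (F y)) x (dr (V n) (V m) e x v)) -
      B x (tr (n := n) e e₁ x (dr (V n) (V m) e x v))
        (tr (n := n) e e₁ x (dr (V n) (V m) e x v)) = _
    rw [tr_apply he, tr_apply he, dr_comp (E₁ := V n) (E₂ := V n) (E₃ := V m')
      (h.smooth.mdifferentiableAt one_ne) (hF.mdifferentiableAt one_ne)]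
    rfl
  have eg : ∀ x v, g (x, dr (V n) (V m) e x v) =
      q (R (F x) (dr (V n) (V m) e (F x) (dr (V n) (V n) F x v)))
        (R (F x) (dr (V n) (V m) e (F x) (dr (V n) (V n) F x v))) -
      q (R x (dr (V n) (V m) e x v)) (R x (dr (V n) (V m) e x v)) := by
    intro x v
    show q (R (F x) (tr (n := n) e (fun y => e (F y)) x (dr (V n) (V m) e x v)))
      (R (F x) (tr (n := n) e (fun y => e (F y)) x (dr (V n) (V m) e x v))) - _ = _
    rw [tr_apply he, dr_comp (E₁ := V n) (E₂ := V n) (E₃ := V m)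
      (he.smooth.mdifferentiableAt one_ne) (hF.mdifferentiableAt one_ne)]
    rfl
  have hq0 : ∀ x ∈ K, ∀ s, quad e₁ B x (orb (n := n) Φ x s) = 0 := by
    intro x hx s
    have h1 := h.basic x hx 0 s
    rw [zero_add] at h1
    rw [h1]
    unfold quad
    simp
  have hf0 : ∀ x ∈ K, ∀ v, (∃ s, v = orb Φ x s) → f (x, dr (V n) (V m) e x v) = 0 := by
    rintro x hx v ⟨s, rfl⟩
    rw [ef, hEq x hx, hq0 x hx, hq0 _ (h.inv x hx), sub_zero]
  have hf1 : ∀ x ∈ K, ∀ v, (∀ s, v ≠ orb Φ x s) → 0 < f (x, dr (V n) (V m) e x v) := by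
    intro x hx v hv
    rw [ef, sub_pos]
    exact h.incr x hx v hv
  obtain ⟨M, hM, hMp⟩ := exists_mult (sph_compact he h.closed) hfc.continuousOn
    (hgc.mono fun p hp => hp.1) (by
      rintro ⟨x, w⟩ ⟨hx, -, h3⟩
      obtain ⟨v, hv⟩ := (tr_self he).1 h3
      have hv' : dr (V n) (V m) e x v = w := hv
      rw [← hv']
      by_cases h4 : ∃ s, v = orb Φ x s
      · exact (hf0 x hx v h4).ge
      · push Not at h4
        exact (hf1 x hx v h4).le) (by
      rintro ⟨x, w⟩ ⟨hx, hw, h3⟩ hfx
      obtain ⟨v, hv⟩ := (tr_self he).1 h3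
      have hv' : dr (V n) (V m) e x v = w := hv
      have hx' : x ∈ K := hx
      rw [← hv'] at hfx hw ⊢
      by_cases h4 : ∃ s, v = orb Φ x s
      · obtain ⟨s, rfl⟩ := h4
        rw [eg, hEq x hx', hRo _ (h.inv x hx'), hRo x hx', sub_pos]
        refine hq s fun hs => ?_
        have e0 : orb (n := n) Φ x s = 0 := by
          rw [hs]
          exact map_zero (oL n Φ x)
        rw [e0, map_zero] at hw
        simp at hw
      · push Not at h4
        exact absurd hfx (hf1 x hx' v h4).ne')
  let b : N → V m →L[ℝ] V m →L[ℝ] ℝ := fun x =>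
    M • (B x).bilinearComp (tr (n := n) e e₁ x) (tr (n := n) e e₁ x) +
      q.bilinearComp (R x) (R x)
  have hb : ∀ x w z, b x w z = M * B x (tr (n := n) e e₁ x w) (tr (n := n) e e₁ x z) +
      q (R x w) (R x z) := fun x w z => rfl
  refine ⟨b, hF, he, h.closed, h.inv, ?_, ?_⟩
  · rw [continuousOn_clm_apply]
    intro w
    rw [continuousOn_clm_apply]
    intro z
    simp only [hb]
    have h1 : ∀ w : V m, ContinuousOn (fun x => tr (n := n) e e₁ x w) K := fun w =>
      ((tr_cont he h.smooth).clm_apply continuous_const).continuousOn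
    have h2 : ∀ w : V m, ContinuousOn (fun x => R x w) K := fun w =>
      hR.clm_apply continuousOn_const
    have hq0 : ContinuousOn (fun _ : N => q) K := continuousOn_const
    exact (continuousOn_const.mul ((h.cont.continuousOn.clm_apply (h1 w)).clm_apply (h1 z))).add
      ((hq0.clm_apply (h2 w)).clm_apply (h2 z))
  · intro x hx v hv
    have hv0 : dr (V n) (V m) e x v ≠ 0 := fun h0 => hv (he.inj x v h0)
    have hn : ‖dr (V n) (V m) e x v‖ ≠ 0 := norm_ne_zero_iff.2 hv0
    set t : ℝ := ‖dr (V n) (V m) e x v‖⁻¹ with ht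
    have ht0 : 0 < t := by positivity
    have h1 := hMp (x, dr (V n) (V m) e x (t • v)) ⟨hx, by
      show ‖dr (V n) (V m) e x (t • v)‖ = 1
      rw [map_smul, norm_smul, ht, norm_inv, norm_norm, inv_mul_cancel₀ hn], by
      show tr (n := n) e e x (dr (V n) (V m) e x (t • v)) = _
      rw [tr_apply he]⟩
    rw [ef, eg] at h1
    have h2 : quad e b (F x) (dr (V n) (V n) F x v) - quad e b x v =
        M * (quad e₁ B (F x) (dr (V n) (V n) F x v) - quad e₁ B x v) +
        (q (R (F x) (dr (V n) (V m) e (F x) (dr (V n) (V n) F x v)))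
          (R (F x) (dr (V n) (V m) e (F x) (dr (V n) (V n) F x v))) -
        q (R x (dr (V n) (V m) e x v)) (R x (dr (V n) (V m) e x v))) := by
      have h3 : ∀ y u, quad e b y u = M * quad e₁ B y u +
          q (R y (dr (V n) (V m) e y u)) (R y (dr (V n) (V m) e y u)) := by
        intro y u
        show b y (dr (V n) (V m) e y u) (dr (V n) (V m) e y u) = _
        rw [hb, tr_apply he]
        rfl
      rw [h3, h3]
      ring
    have h4 : M * (quad e₁ B (F x) (dr (V n) (V n) F x (t • v)) - quad e₁ B x (t • v)) +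
        (q (R (F x) (dr (V n) (V m) e (F x) (dr (V n) (V n) F x (t • v))))
          (R (F x) (dr (V n) (V m) e (F x) (dr (V n) (V n) F x (t • v)))) -
        q (R x (dr (V n) (V m) e x (t • v))) (R x (dr (V n) (V m) e x (t • v)))) =
        t ^ 2 * (quad e b (F x) (dr (V n) (V n) F x v) - quad e b x v) := by
      rw [h2]
      unfold quad
      simp only [map_smul, smul_apply, smul_eq_mul]
      ring
    rw [h4] at h1
    have h5 : 0 < t ^ 2 := by positivity
    have h6 := (mul_pos_iff_of_pos_left h5).1 h1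
    linarith

end Pool.Agent.W5h63.AX
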