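import Mathlib
import Pool.Agent.W5h63.AX.Total
import Pool.Agent.W5h63.AX.Hyp
import Pool.Agent.W5h63.AP.Main

/-!
# Stability implies Axiom A for diffeomorphisms with homogeneous leaves
-/

set_option autoImplicit false
set_option linter.unusedSectionVars false
set_option maxSynthPendingDepth 3

open Filter Topology Set Metric
open scoped ContDiff Manifold

noncomputable section

namespace Pool.Agent.W5h63.AX

open Pool.Agent.R774.Cl Pool.Agent.R774.ClStmt Pool.Agent.H718R2.G Pool.Agent.R775.HL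
  Pool.Agent.TH80.OMS Pool.Agent.R189.NC Pool.Agent.R774.OS Pool.Agent.W5h63.AP

universe u

variable {n : ℕ} {N : Type u} [TopologicalSpace N] [ChartedSpace (V n) N]

/-- the bilinear form with the matrix `B` -/
def toForm {m : ℕ} (B : Fin m → Fin m → ℝ) : V m →L[ℝ] V m →L[ℝ] ℝ :=
  ∑ i, ∑ j, B i j • (EuclideanSpace.proj i : V m →L[ℝ] ℝ).smulRight
    (EuclideanSpace.proj j : V m →L[ℝ] ℝ)

lemma toForm_self {m : ℕ} (B : Fin m → Fin m → ℝ) (w : V m) : toForm B w w = qf B w := by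
  have hp : ∀ i, (EuclideanSpace.proj i : V m →L[ℝ] ℝ) w = w i := fun i => rfl
  unfold toForm qf
  simp only [sum_apply, smul_apply, ContinuousLinearMap.smulRight_apply, smul_eq_mul, hp]
  refine Finset.sum_congr rfl fun i _ => Finset.sum_congr rfl fun j _ => ?_
  ring

lemma toForm_cont {m : ℕ} {B : N → Fin m → Fin m → ℝ} (hB : Continuous B) :
    Continuous fun x => toForm (B x) := by
  unfold toForm
  refine continuous_finsetSum _ fun i _ => continuous_finsetSum _ fun j _ => ?_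
  exact ((continuous_apply j).comp ((continuous_apply i).comp hB)).smul continuous_const

lemma TrHyp.trans {G : Type} [TopologicalSpace G] {k m : ℕ} {F : N → N} {O K : Set N}
    {act : G → N → N} {Φ : V k → N → N} {e : N → V m} {B : N → Fin m → Fin m → ℝ}
    (h : TrHyp n F O act K Φ e B) :
    TransHyp (n := n) F O act K Φ e (fun x => toForm (B x)) where
  closed := h.closed
  sub := h.sub
  inv := h.inv
  sat := h.sat
  cocompact := h.cocompact
  fam := h.fam
  fam_zero := h.fam_zero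
  along := h.along
  free := h.free
  smooth := h.smooth
  cont := toForm_cont h.cont
  basic := by
    intro x hx v s
    unfold quad
    rw [toForm_self, toForm_self]
    exact h.basic x hx v s
  incr := by
    intro x hx v hv
    unfold quad
    rw [toForm_self, toForm_self]
    exact h.incr x hx v hv

lemma CRec_eq (F : N → N) : CRec F = CR F := by
  ext z
  refine ⟨fun h W hW hd => ?_, fun h W hW hd => ?_⟩
  · obtain ⟨m, x, h1, h2, h3, h4⟩ := h W hW hd
    exact ⟨m, x, h1, h2, h3, fun i _ => mem_univ _, h4⟩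
  · obtain ⟨m, x, h1, h2, h3, -, h4⟩ := h W hW hd
    exact ⟨m, x, h1, h2, h3, h4⟩

lemma IsExp.lie {G : Type} [Group G] {d k : ℕ} {ι : G →* Md d} {c : V k →ₗ[ℝ] Md d}
    {φ : G →* G} {A : V k →ₗ[ℝ] V k} (h : IsExp ι c φ A) : IsLieAlg ι (LinearMap.range c) where
  mem_iff := fun X => by rw [LinearMap.mem_range]; exact h.mem X
  log := fun g => by
    obtain ⟨s, hs⟩ := h.log g
    exact ⟨c s, ⟨s, rfl⟩, hs⟩

lemma CptHyp.compactTrans {F : N → N} {K : Set N} (h : CptHyp n F K) :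
    ∃ k, CompactTrans n F k K := by
  obtain ⟨G, i1, i2, i3, i4, q, k, m, ι, O, act, Φ, e, B, h1, h2, h3⟩ := h
  exact ⟨k, G, i1, i2, i3, O, act, m, Φ, e, fun x => toForm (B x),
    ⟨i4, ⟨q, ι, h1⟩, fun g y hy => h2 y hy g⟩, h3.trans⟩

/-- the differential on the Lie algebra, if `c` is injective -/
lemma exists_diff {G : Type} [Group G] {d k : ℕ} {ι : G →* Md d} {c : V k →ₗ[ℝ] Md d}
    {φ : G →* G} {A : V k →ₗ[ℝ] V k} (hc : Function.Injective c)
    (hA : ∀ s g, ι g = NormedSpace.exp (c s) → ι (φ g) = NormedSpace.exp (c (A s))) :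
    ∃ (c' : V k ≃ₗ[ℝ] LinearMap.range c) (L : LinearMap.range c →ₗ[ℝ] LinearMap.range c),
      (∀ s, ((c' s : LinearMap.range c) : Md d) = c s) ∧ (∀ s, L (c' s) = c' (A s)) ∧
        IsDiff ι (LinearMap.range c) φ L := by
  let c' : V k ≃ₗ[ℝ] LinearMap.range c := LinearEquiv.ofInjective c hc
  refine ⟨c', (c' : V k →ₗ[ℝ] LinearMap.range c) ∘ₗ A ∘ₗ
    (c'.symm : LinearMap.range c →ₗ[ℝ] V k), fun s => rfl, fun s => ?_, fun X g hg => ?_⟩
  · show c' (A (c'.symm (c' s))) = _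
    rw [c'.symm_apply_apply]
  · obtain ⟨s, rfl⟩ := c'.surjective X
    have h1 := hA s g hg
    rw [h1]
    show _ = NormedSpace.exp ((c' (A (c'.symm (c' s))) : LinearMap.range c) : Md d)
    rw [c'.symm_apply_apply]
    rfl

variable [IsManifold (𝓡 n) ∞ N]

lemma family_diff {k : ℕ} {Φ : V k → N → N}
    (hΦ : ContMDiff ((𝓡 k).prod (𝓡 n)) (𝓡 n) 1 (fun q : V k × N => Φ q.1 q.2)) (y : N) :
    MDifferentiableAt 𝓘(ℝ, V k) 𝓘(ℝ, V n) (fun s => Φ s y) 0 := by
  have h2 : ContMDiffAt 𝓘(ℝ, V k) (𝓘(ℝ, V k).prod 𝓘(ℝ, V n)) 1 (fun s : V k => (s, y)) 0 :=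
    contMDiffAt_id.prodMk contMDiffAt_const
  exact (ContMDiffAt.comp (g := fun q : V k × N => Φ q.1 q.2) (f := fun s : V k => (s, y))
    (0 : V k) hΦ.contMDiffAt h2).mdifferentiableAt one_ne

/-- the derivative of a family reparametrized by a linear map -/
lemma family_lin {k : ℕ} {Φ : V k → N → N}
    (hΦ : ContMDiff ((𝓡 k).prod (𝓡 n)) (𝓡 n) 1 (fun q : V k × N => Φ q.1 q.2)) (y : N)
    (T : V k →L[ℝ] V k) : dr (V k) (V n) (fun s => Φ (T s) y) 0 = (oL n Φ y).comp T := by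
  have h4 : MDifferentiableAt 𝓘(ℝ, V k) 𝓘(ℝ, V k) T 0 := T.differentiableAt.mdifferentiableAt
  have h5 : MDifferentiableAt 𝓘(ℝ, V k) 𝓘(ℝ, V n) (fun s => Φ s y) (T 0) := by
    rw [map_zero]
    exact family_diff hΦ y
  have h6 := dr_comp (E₁ := V k) (E₂ := V k) (E₃ := V n) (g := fun s => Φ s y)
    (f := T) (x := 0) h5 h4
  have h7 : dr (V k) (V k) T 0 = T := by
    rw [dr_eq_fderiv]
    exact T.fderiv
  rw [h7, map_zero] at h6
  exact h6

/-- the parametrization of the Lie algebra is injective -/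
lemma exp_inj {G : Type} [Group G] [TopologicalSpace G] {d k m : ℕ} {ι : G →* Md d}
    {c : V k →ₗ[ℝ] Md d} {F : N → N} {O K : Set N}
    {act : G → N → N} {Φ : V k → N → N} {e : N → V m} {B : N → V m →L[ℝ] V m →L[ℝ] ℝ}
    (h1 : IsNilAction n N ι O act)
    (h2 : ∀ x ∈ K, ∀ s, ∃ g, ι g = NormedSpace.exp (c s) ∧ Φ s x = act g x)
    (h3 : TransHyp (n := n) F O act K Φ e B) (hne : K.Nonempty) : Function.Injective c := by
  rw [← LinearMap.ker_eq_bot, LinearMap.ker_eq_bot']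
  intro s hs
  by_contra hs0
  obtain ⟨x, hx⟩ := hne
  have hn : ‖s‖ ^ 2 ≠ 0 := pow_ne_zero 2 (norm_ne_zero_iff.2 hs0)
  let T : V k →L[ℝ] V k := (‖s‖ ^ 2)⁻¹ • (innerSL ℝ s).smulRight s
  have hT : ∀ a, T a = ((‖s‖ ^ 2)⁻¹ * inner ℝ s a) • s := by
    intro a
    show (‖s‖ ^ 2)⁻¹ • (inner ℝ s a • s) = _
    rw [smul_smul]
  have hTs : T s = s := by
    rw [hT, real_inner_self_eq_norm_sq, inv_mul_cancel₀ hn, one_smul]
  have h4 : (fun a => Φ (T a) x) = fun _ => x := by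
    funext a
    obtain ⟨g, hg, hgx⟩ := h2 x hx (T a)
    have h5 : g = 1 := by
      apply h1.rep_inj
      rw [hg, hT, map_smul, hs, smul_zero, NormedSpace.exp_zero, map_one]
    rw [hgx, h5, h1.one x (h3.sub hx)]
  have h5 := family_lin h3.fam x T
  rw [h4] at h5
  have h6 : dr (V k) (V n) (fun _ : V k => x) 0 = 0 := by
    simp [dr]
    rfl
  rw [h6] at h5
  have h7 := DFunLike.congr_fun h5 s
  have h8 : orb (n := n) Φ x s = 0 := by
    have h9 : (oL n Φ x) (T s) = 0 := h7.symm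
    rw [hTs] at h9
    exact h9
  exact hs0 (h3.free x hx s h8)

lemma NilHyp.nilTrans {F : N → N} {K : Set N} (h : NilHyp n F K) (hne : K.Nonempty) :
    NilTrans n F K := by
  obtain ⟨G, i1, i2, i3, d, k, m, ι, c, φ, A, O, act, Φ, e, B, h1, h2, h3, h4, h5, h6⟩ := h
  obtain ⟨c', L, hc', hL, hd⟩ := exists_diff (exp_inj h1 h6 h5.trans hne) h3.diff
  exact ⟨G, i1, i2, i3, d, ι, LinearMap.range c, O, act, k, m, Φ, e, fun x => toForm (B x),
    ⟨h1, h2, h3.lie, fun y hy => ⟨φ, L, hd, h4 y hy⟩⟩, h5.trans⟩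

variable [T2Space N] [CompactSpace N] {r : ℕ∞}

/-- The linear part is hyperbolic. -/
lemma linear_hyp (hr : 1 ≤ r) {F : DiffM n N r} (hF : OmegaStable n N r F)
    {G : Type} [Group G] [TopologicalSpace G] [IsTopologicalGroup G] {d : ℕ}
    {ι : G →* Md d} {𝔤 : Submodule ℝ (Md d)} {φ : G →* G} {L : 𝔤 →ₗ[ℝ] 𝔤} {O K : Set N}
    {act : G → N → N} {k m : ℕ} {Φ : V k → N → N} {e : N → V m}
    {B : N → V m →L[ℝ] V m →L[ℝ] ℝ}
    (hact : IsNilAction n N ι O act) (hpt : ∀ y ∈ O, IsNilPt ι act y) (h𝔤 : IsLieAlg ι 𝔤)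
    (hL : IsDiff ι 𝔤 φ L) (hφ : ∀ y ∈ O, ∀ g, F (act g y) = act (φ g) (F y))
    (h : TransHyp (n := n) F O act K Φ e B) (hne : K.Nonempty) : HypLin L := by
  classical
  have hl : NilLeavesD n N ι 𝔤 F O act := ⟨hact, hpt, h𝔤, fun y hy => ⟨φ, L, hL, hφ y hy⟩⟩
  have hO := orbs_nil hl.nilLeaves
  obtain ⟨z, hzK, hz⟩ := exists_chainRec F.continuous h.closed.isCompact hne h.inv
  have hz' := chainRecMod_of hO.one h.sub h.inv hz
  have hF1 : ContMDiff (𝓡 n) (𝓡 n) 1 F := F.contMDiff_toFun.of_le (by exact_mod_cast hr)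
  obtain ⟨y, -, hyO, hq⟩ := leaf_closing hF1 hO h hz' univ_mem
  have hy0 : y ∈ O := hyO 0
  have hiter : ∀ i : ℕ, ∃ ψ : G →* G, IsDiff ι 𝔤 ψ (L ^ i) ∧
      ∀ g, F^[i] (act g y) = act (ψ g) (F^[i] y) := by
    intro i
    induction i with
    | zero => exact ⟨MonoidHom.id G, fun X g hg => hg, fun g => rfl⟩
    | succ i ih =>
      obtain ⟨ψ, hψ, hψ'⟩ := ih
      refine ⟨φ.comp ψ, fun X g hg => ?_, fun g => ?_⟩
      · rw [pow_succ']
        exact hL _ _ (hψ X g hg)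
      · rw [Function.iterate_succ_apply', hψ', hφ _ (hyO i), Function.iterate_succ_apply' F]
        rfl
  -- the first return
  obtain ⟨q, hqd⟩ : ∃ q, q = Nat.find hq := ⟨_, rfl⟩
  obtain ⟨hq1, p, hp⟩ : 1 ≤ q ∧ ∃ g, F^[q] y = act g y := by rw [hqd]; exact Nat.find_spec hq
  have hmin : ∀ i, 1 ≤ i → i < q → ∀ g g', F^[i] (act g y) ≠ act g' y := by
    intro i hi1 hi2 g g' hgg
    rw [hqd] at hi2
    apply Nat.find_min hq hi2
    obtain ⟨ψ, -, hψ⟩ := hiter i
    refine ⟨hi1, (ψ g)⁻¹ * g', ?_⟩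
    rw [hact.mul _ _ y hy0, ← hgg, hψ, ← hact.mul _ _ _ (hyO i), inv_mul_cancel,
      hact.one _ (hyO i)]
  obtain ⟨ψ, hψL, hψ⟩ := hiter q
  let ψ' : G →* G := (MulAut.conj p⁻¹).toMonoidHom.comp ψ
  have hψ' : ∀ g, ψ' g = p⁻¹ * ψ g * p := by
    intro g
    show (MulAut.conj p⁻¹) (ψ g) = _
    rw [MulAut.conj_apply, inv_inv]
  have hret : ∀ g, F^[q] (act g y) = act (p * ψ' g) y := by
    intro g
    rw [hψ, hp, ← hact.mul _ _ y hy0, hψ']
    congr 1
    group
  have hL' : IsDiff ι 𝔤 ψ' (Ad hl.lie p⁻¹ ∘ₗ (L ^ q)) := by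
    intro X g hg
    rw [hψ', map_mul, map_mul, hψL X g hg]
    show _ = NormedSpace.exp (ι p⁻¹ * (((L ^ q) X : 𝔤) : Md d) * ι p⁻¹⁻¹)
    rw [← exp_conj_mul (iota_mul_inv p⁻¹), inv_inv]
  have h3 := nil_hyp r hr hF hact hy0 (hl.pt y hy0) hl.lie hq1 hret hmin hL'
  refine hyp_transfer (A := Ad h𝔤 p⁻¹ ∘ₗ (L ^ q)) (k := q) (s := d) (Dfil h𝔤) rfl
    (Dfil_bot hact.uni h𝔤) (Dfil_mono h𝔤) (Dfil_diff h𝔤 hL) ?_ h3
  intro i x hx
  have hLk : ∀ j, (L ^ j) x ∈ Dfil h𝔤 i := by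
    intro j
    induction j with
    | zero => exact hx
    | succ j ih => rw [pow_succ']; exact Dfil_diff h𝔤 hL i _ ih
  exact Submodule.subset_span ⟨p⁻¹, (L ^ q) x, hLk q, rfl⟩

lemma drF_inj (hr : 1 ≤ r) (F : DiffM n N r) (x : N) (v : V n)
    (hv : dr (V n) (V n) F x v = 0) : v = 0 := by
  have hF : ContMDiff (𝓡 n) (𝓡 n) 1 F := F.contMDiff_toFun.of_le (by exact_mod_cast hr)
  have hF' : ContMDiff (𝓡 n) (𝓡 n) 1 F.symm :=
    F.symm.contMDiff_toFun.of_le (by exact_mod_cast hr)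
  have h1 := dr_inv hF' hF F.symm_apply_apply x v
  rw [hv, map_zero] at h1
  exact h1.symm

/-- the total form for nilmanifolds -/
theorem nil_cone (hr : 1 ≤ r) {F : DiffM n N r} (hF : OmegaStable n N r F) {K : Set N}
    (h : NilHyp n F K) {m : ℕ} {e : N → V m} (he : Imm n e) :
    ∃ b : N → V m →L[ℝ] V m →L[ℝ] ℝ, Cone n F K e b := by
  obtain ⟨G, _, _, _, d, k, m', ι, c, φ, A, O, act, Φ, e₁, B, hact, hpt, hexp, haff, h', hΦ⟩ := h
  have h := h'.trans
  have hF1 : ContMDiff (𝓡 n) (𝓡 n) 1 F := F.contMDiff_toFun.of_le (by exact_mod_cast hr)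
  rcases K.eq_empty_or_nonempty with rfl | hne
  · exact ⟨fun _ => 0, hF1, he, h.closed, h.inv, fun x hx => absurd hx (notMem_empty x),
      fun x hx => absurd hx (notMem_empty x)⟩
  obtain ⟨c', L, hc', hLA, hL⟩ := exists_diff (exp_inj hact hΦ h hne) hexp.diff
  have hhyp := linear_hyp hr hF hact hpt hexp.lie hL haff h hne
  have hEq : ∀ x ∈ K, ∀ s, dr (V n) (V n) F x (orb Φ x s) = orb Φ (F x) (A s) := by
    intro x hx s
    have h1 : (fun s => F (Φ s x)) = fun s => Φ (LinearMap.toContinuousLinearMap A s) (F x) := by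
      funext s
      obtain ⟨g, hg, hgx⟩ := hΦ x hx s
      obtain ⟨g', hg', hgx'⟩ := hΦ (F x) (h.inv x hx) (A s)
      show F (Φ s x) = Φ (A s) (F x)
      rw [hgx, haff x (h.sub hx), hgx']
      congr 1
      apply hact.rep_inj
      rw [hexp.diff s g hg, hg']
    have h2 : dr (V k) (V n) (fun s => F (Φ s x)) 0 = (dr (V n) (V n) F x).comp (oL n Φ x) := by
      rw [dr_comp (E₁ := V k) (E₂ := V n) (E₃ := V n) (g := F) (f := fun s => Φ s x)
        (hF1.mdifferentiableAt one_ne) (family_diff h.fam x), h.fam_zero]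
      rfl
    rw [h1, family_lin h.fam] at h2
    exact (DFunLike.congr_fun h2 s).symm
  have hinj : Function.Injective A := by
    intro s t hst
    obtain ⟨x, hx⟩ := hne
    rw [← sub_eq_zero]
    apply h.free x hx
    apply drF_inj hr F x
    rw [hEq x hx, map_sub, hst, sub_self]
    exact map_zero (oL n Φ (F x))
  let Le : V k ≃ₗ[ℝ] V k := LinearEquiv.ofInjectiveEndo A hinj
  have hLe : ∀ s, Le s = A s := fun s => rfl
  have hhyp' : HypLin (Le : V k →ₗ[ℝ] V k) := by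
    refine hypLin_of_inter (D := L) (J := (c' : V k →ₗ[ℝ] LinearMap.range c)) (m := 1)
      c'.injective ?_ hhyp
    rw [pow_one]
    refine LinearMap.ext fun s => ?_
    exact hLA s
  exact total hF1 h he Le hhyp' fun x hx s => by rw [hEq x hx, hLe]

/-- the total form for compact groups -/
theorem cpt_cone (hr : 1 ≤ r) {F : DiffM n N r} (hF : OmegaStable n N r F) {K : Set N} {k : ℕ}
    (h : CompactTrans n F k K) {m : ℕ} {e : N → V m} (he : Imm n e) :
    ∃ b : N → V m →L[ℝ] V m →L[ℝ] ℝ, Cone n F K e b := by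
  have hF1 : ContMDiff (𝓡 n) (𝓡 n) 1 F := F.contMDiff_toFun.of_le (by exact_mod_cast hr)
  rcases K.eq_empty_or_nonempty with rfl | hne
  · exact ⟨fun _ => 0, hF1, he, isClosed_empty, fun x hx => absurd hx (notMem_empty x),
      fun x hx => absurd hx (notMem_empty x), fun x hx => absurd hx (notMem_empty x)⟩
  obtain ⟨U, -, hFU, hU⟩ := cpt_rank_zero r hr hF
  obtain rfl : k = 0 := hU F hFU k K h hne
  obtain ⟨G, _, _, _, O, act, m', Φ, e₁, B, -, h⟩ := h
  refine total hF1 h he (LinearEquiv.refl ℝ (V 0)) ?_ ?_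
  · intro μ hμ
    have h1 : (LinearMap.charpoly ((LinearEquiv.refl ℝ (V 0) : V 0 ≃ₗ[ℝ] V 0) :
        V 0 →ₗ[ℝ] V 0)) = 1 := by
      have h2 : (LinearMap.charpoly ((LinearEquiv.refl ℝ (V 0) : V 0 ≃ₗ[ℝ] V 0) :
        V 0 →ₗ[ℝ] V 0)).natDegree = 0 := by
        rw [LinearMap.charpoly_natDegree]
        simp
      exact (Polynomial.Monic.natDegree_eq_zero (LinearMap.charpoly_monic _)).1 h2
    rw [h1, Polynomial.map_one, Polynomial.IsRoot.def, Polynomial.eval_one] at hμ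
    exact absurd hμ one_ne_zero
  · intro x hx s
    have hs : s = 0 := Subsingleton.elim _ _
    have e1 : ∀ y : N, orb (n := n) Φ y (0 : V 0) = 0 := fun y => map_zero (oL n Φ y)
    rw [hs, e1, map_zero, map_zero, e1]

/-- **Stability implies Axiom A for diffeomorphisms with homogeneous leaves.** -/
theorem axiomA (hr : 1 ≤ r) {F : DiffM n N r} (hF : OmegaStable n N r F) (h : HomHypCR n F) :
    AxiomA n F F.symm ∧ Omega F = CRec F := by
  classical
  obtain ⟨ι, K, hfin, hK, hdis, hun⟩ := h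
  rw [CRec_eq] at hun ⊢
  obtain ⟨hd1, hd2⟩ : CR F = closure (Per F) ∧ Omega F = closure (Per F) := by
    refine cr_dense (K := K) (fun i => ?_) (fun i => ?_) hdis hun fun i z hz hch => ?_
    · rcases hK i with ⟨_, _, _, _, _, _, _, _, _, _, _, _, _, _, _, _, -, -, -, -, h, -⟩ |
        ⟨_, _, _, _, _, _, _, _, _, _, _, _, _, _, -, -, h⟩
      · exact h.closed
      · exact h.closed
    · rcases hK i with ⟨_, _, _, _, _, _, _, _, _, _, _, _, _, _, _, _, -, -, -, -, h, -⟩ |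
        ⟨_, _, _, _, _, _, _, _, _, _, _, _, _, _, -, -, h⟩
      · exact h.inv
      · exact h.inv
    · rcases hK i with h | h
      · exact nil_mem_closure_per r hr hF (h.nilTrans ⟨z, hz⟩) hch
      · obtain ⟨k, h⟩ := h.compactTrans
        exact cpt_mem_closure_per r hr hF h hch
  obtain ⟨m, e, he1, -, he2⟩ := exists_embedding_euclidean_of_compact (I := 𝓡 n) (M := N)
  have he : Imm n e := ⟨he1.of_le (by simp), fun x v hv => he2 x (hv.trans (map_zero _).symm)⟩
  have hcone : ∀ i, ∃ b : N → V m →L[ℝ] V m →L[ℝ] ℝ, Cone n F (K i) e b := by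
    intro i
    rcases hK i with h | h
    · exact nil_cone hr hF h he
    · obtain ⟨k, h⟩ := h.compactTrans
      exact cpt_cone hr hF h he
  choose b hb using hcone
  -- gluing
  let b' : N → V m →L[ℝ] V m →L[ℝ] ℝ := fun x =>
    if hx : ∃ i, x ∈ K i then b hx.choose x else 0
  have hb' : ∀ i, ∀ x ∈ K i, b' x = b i x := by
    intro i x hx
    have hx' : ∃ i, x ∈ K i := ⟨i, hx⟩
    have h1 : b' x = b hx'.choose x := dif_pos hx'
    have h2 : hx'.choose = i := by
      by_contra hne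
      exact disjoint_left.1 (hdis _ _ hne) hx'.choose_spec hx
    rw [h1, h2]
  have hF1 : ContMDiff (𝓡 n) (𝓡 n) 1 F := F.contMDiff_toFun.of_le (by exact_mod_cast hr)
  have hC : Cone n F (CR F) e b' := by
    refine ⟨hF1, he, ?_, ?_, ?_, ?_⟩
    · rw [hd1]
      exact isClosed_closure
    · intro x hx
      rw [← hun] at hx ⊢
      obtain ⟨i, hi⟩ := mem_iUnion.1 hx
      exact mem_iUnion.2 ⟨i, (hb i).inv x hi⟩
    · rw [← hun]
      refine (locallyFinite_of_finite K).continuousOn_iUnion (fun i => (hb i).closed) fun i => ?_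
      exact (hb i).cont.congr fun x hx => hb' i x hx
    · intro x hx v hv
      rw [← hun] at hx
      obtain ⟨i, hi⟩ := mem_iUnion.1 hx
      have h1 := (hb i).incr x hi v hv
      unfold quad at h1 ⊢
      rwa [hb' i x hi, hb' i (F x) ((hb i).inv x hi)]
  have hper' : ∀ p ∈ Per F, F.symm p ∈ Per F := by
    rintro p ⟨j, hj, hp⟩
    refine ⟨j, hj, ?_⟩
    have h1 : F (F^[j] (F.symm p)) = F (F.symm p) := by
      rw [← Function.iterate_succ_apply' F, Function.iterate_succ_apply, F.apply_symm_apply]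
      exact hp
    exact F.injective h1
  have hinv : ∀ x ∈ CR F, F.symm x ∈ CR F := by
    intro x hx
    rw [hd1] at hx ⊢
    exact map_mem_closure F.symm.continuous hx hper'
  have hhyp : IsHyperbolic n F F.symm (CR F) := by
    refine hC.isHyperbolic hr hinv (P := Per F) (by rw [hd1]; exact subset_closure)
      (by rw [← hd1]) ?_
    intro p hp
    have hst := Pool.Agent.Y504.CO.Gen.stable_hyp hr hF p hp
    obtain ⟨j, hj, hpj⟩ := hp
    refine ⟨j, hj, hpj, ?_⟩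
    obtain ⟨D, hD, hDr⟩ := hst.2 j hj hpj (chartAt (V n) p)
      (IsManifold.chart_mem_maximalAtlas p) (mem_chart_source _ _)
    have hsrc := mem_extChartAt_source (I := 𝓡 n) p
    refine hypLin_of_inter (D := (D : V n →ₗ[ℝ] V n)) (J := (th (E := V n) p p : V n →ₗ[ℝ] V n)) (m := 1)
      (fun v w hvw => sub_eq_zero.1 (th_inj hsrc (by
        have h5 : th (E := V n) p p v = th (E := V n) p p w := hvw
        rw [map_sub, h5, sub_self]))) ?_ hDr
    rw [pow_one]
    ext v : 1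
    have h1 := chart_comp (cmd_iter hF1 j) hsrc (b := p) (by
      show F^[j] p ∈ _
      rw [hpj]
      exact hsrc) v
    have h2 : fderiv ℝ (fun p' => extChartAt 𝓘(ℝ, V n) p (F^[j] ((extChartAt 𝓘(ℝ, V n) p).symm p')))
        (extChartAt 𝓘(ℝ, V n) p p) = D := hD.fderiv
    rw [h2, hpj] at h1
    exact h1
  rw [hd2, ← hd1]
  exact ⟨⟨by rw [hd2, ← hd1]; exact hhyp, by rw [hd2]⟩, rfl⟩

end Pool.Agent.W5h63.AX
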